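import Pool.Agent.H51.EM.Targets

set_option autoImplicit false

namespace Pool.Agent.H55.EM

open Pool.Agent.H51.EM

/-- a power is locally Lipschitz at a positive point -/
theorem zp (m : ℤ) (a : ℝ) (ha : 0 < a) : ∃ K δ : ℝ, 0 < K ∧ 0 < δ ∧ δ ≤ a / 2 ∧
    ∀ Y : ℝ, |a - Y| ≤ δ → |a ^ m - Y ^ m| ≤ K * |a - Y| := by
  have h1 : HasDerivAt (fun x : ℝ => x ^ m) (m * a ^ (m - 1)) a :=
    hasDerivAt_zpow m a (Or.inl ha.ne')
  have h2 := h1.isBigO_sub
  obtain ⟨c, hc⟩ := h2.bound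
  rw [Metric.eventually_nhds_iff] at hc
  obtain ⟨e, he, hc⟩ := hc
  refine ⟨|c| + 1, min (e / 2) (a / 2), by positivity, by positivity, min_le_right _ _, ?_⟩
  intro Y hY
  have hY1 : dist Y a < e := by
    rw [Real.dist_eq, abs_sub_comm]
    have := min_le_left (e / 2) (a / 2)
    linarith
  have h3 := hc hY1
  simp only [Real.norm_eq_abs] at h3
  rw [abs_sub_comm (a ^ m), abs_sub_comm a Y]
  have h4 : c ≤ |c| := le_abs_self c
  nlinarith [abs_nonneg (Y - a)]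

theorem pf_LIP : T_LIP := by
  intro m n a b ha hb
  obtain ⟨K1, d1, hK1, hd1, hd1a, h1⟩ := zp m a ha
  obtain ⟨K2, d2, hK2, hd2, hd2b, h2⟩ := zp n b hb
  have hb' : 0 < b ^ n := zpow_pos hb n
  have ha' : 0 < a ^ m := zpow_pos ha m
  refine ⟨K1 * (b ^ n + K2 * d2) + a ^ m * K2, min d1 d2, by positivity, by positivity, ?_⟩
  intro Y Z hY hZ
  have hY1 : |a - Y| ≤ d1 := hY.trans (min_le_left _ _)
  have hZ1 : |b - Z| ≤ d2 := hZ.trans (min_le_right _ _)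
  have hYa := abs_le.1 hY1
  have hZb := abs_le.1 hZ1
  refine ⟨by linarith [hYa.2], by linarith [hZb.2], ?_⟩
  have e1 := h1 Y hY1
  have e2 := h2 Z hZ1
  have hZn : |Z ^ n| ≤ b ^ n + K2 * d2 := by
    have h5 : |Z ^ n| ≤ |b ^ n| + |b ^ n - Z ^ n| := by
      have := abs_sub_abs_le_abs_sub (Z ^ n) (b ^ n)
      rw [abs_sub_comm] at this
      linarith
    rw [abs_of_pos hb'] at h5
    have h6 : K2 * |b - Z| ≤ K2 * d2 := mul_le_mul_of_nonneg_left hZ1 hK2.le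
    linarith
  have key : a ^ m * b ^ n - Y ^ m * Z ^ n = (a ^ m - Y ^ m) * Z ^ n + a ^ m * (b ^ n - Z ^ n) := by
    ring
  rw [key]
  calc |(a ^ m - Y ^ m) * Z ^ n + a ^ m * (b ^ n - Z ^ n)|
      ≤ |a ^ m - Y ^ m| * |Z ^ n| + a ^ m * |b ^ n - Z ^ n| := by
        refine (abs_add_le _ _).trans ?_
        rw [abs_mul, abs_mul, abs_of_pos ha']
    _ ≤ (K1 * |a - Y|) * (b ^ n + K2 * d2) + a ^ m * (K2 * |b - Z|) := by
        gcongr
    _ ≤ (K1 * (b ^ n + K2 * d2) + a ^ m * K2) * (|a - Y| + |b - Z|) := by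
        have p1 : 0 ≤ K1 * (b ^ n + K2 * d2) * |b - Z| := by positivity
        have p2 : 0 ≤ a ^ m * K2 * |a - Y| := by positivity
        nlinarith

end Pool.Agent.H55.EM
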